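import Pool.Agent.Lib.MP_b29168_gt.Seven

/-! Every plane convex set of area one lies in a convex quadrilateral of area at most `7/5`. -/

namespace Pool.Agent.Results.MP_b29168_gt.Quadrilateral

open MeasureTheory Set Pool.Agent.Lib.MP_b29168_gt

theorem result (K : Set (EuclideanSpace ℝ (Fin 2))) (hK : Convex ℝ K) (hA : volume K = 1) :
    ∃ a b c d : EuclideanSpace ℝ (Fin 2), K ⊆ convexHull ℝ {a, b, c, d} ∧
      volume (convexHull ℝ ({a, b, c, d} : Set (EuclideanSpace ℝ (Fin 2)))) ≤ 7 / 5 := by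
  let e : EuclideanSpace ℝ (Fin 2) ≃ₗ[ℝ] ℝ × ℝ :=
    (WithLp.linearEquiv 2 ℝ (Fin 2 → ℝ)).trans (LinearEquiv.finTwoArrow ℝ ℝ)
  let m : EuclideanSpace ℝ (Fin 2) ≃ᵐ ℝ × ℝ :=
    (MeasurableEquiv.toLp 2 (Fin 2 → ℝ)).symm.trans MeasurableEquiv.finTwoArrow
  have hm : MeasurePreserving m volume volume :=
    (EuclideanSpace.volume_preserving_symm_measurableEquiv_toLp (Fin 2)).trans
      (volume_preserving_finTwoArrow ℝ)
  have hv : ∀ S : Set (EuclideanSpace ℝ (Fin 2)), volume (e '' S) = volume S := fun S => by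
    have : e '' S = m '' S := rfl
    rw [this, ← hm.measure_preimage_equiv, m.preimage_image]
  obtain ⟨a, b, c, d, h1, h2⟩ := seven (K := e '' K) (hK.linear_image e.toLinearMap)
    (by rw [hv, hA])
  have h3 : e '' convexHull ℝ {e.symm a, e.symm b, e.symm c, e.symm d} =
      convexHull ℝ {a, b, c, d} := by
    have := e.toLinearMap.image_convexHull {e.symm a, e.symm b, e.symm c, e.symm d}
    simp only [image_insert_eq, image_singleton, LinearEquiv.coe_coe,
      LinearEquiv.apply_symm_apply] at this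
    exact this
  refine ⟨e.symm a, e.symm b, e.symm c, e.symm d, ?_, ?_⟩
  · rw [← image_subset_image_iff e.injective, h3]; exact h1
  · rw [← hv, h3]
    refine h2.trans (le_of_eq ?_)
    rw [ENNReal.ofReal_div_of_pos (by norm_num)]
    simp

end Pool.Agent.Results.MP_b29168_gt.Quadrilateral
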